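import Pool.Agent.W485.QL.Stm

/-!
The explicit maps satisfy the abstract properties `Sys` (project QL).
-/

set_option autoImplicit false

open Filter Topology Metric

namespace Pool.Agent.W28.QL

open Pool.Agent.W485.QL

theorem ell_pos (k : ℕ) : 0 < ell k := by
  unfold ell
  positivity

theorem ell_succ (k : ℕ) : ell (k + 1) = ell k * (1 / 2) ^ (2 * k + 21) := by
  unfold ell
  rw [← pow_add]
  congr 1
  ring

theorem q_le (k : ℕ) : ((1 : ℝ) / 2) ^ (2 * k + 21) ≤ (1 / 2) ^ k * (1 / 2) ^ 21 := by
  rw [← pow_add]
  exact pow_le_pow_of_le_one (by norm_num) (by norm_num) (by omega)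

theorem q_le' (k : ℕ) : ((1 : ℝ) / 2) ^ (2 * k + 21) ≤ (1 / 2) ^ 21 :=
  pow_le_pow_of_le_one (by norm_num) (by norm_num) (by omega)

theorem eta_nonneg (k : ℕ) (x : ℝ) : 0 ≤ eta k x := le_max_left _ _

theorem eta_le_one (k : ℕ) (x : ℝ) : eta k x ≤ 1 := max_le zero_le_one (min_le_left _ _)

theorem eta_lip (k : ℕ) (x x' : ℝ) : |eta k x - eta k x'| ≤ |x - x'| / ell k := by
  unfold eta
  have h1 : |max 0 (min 1 (2 - infDist x E / ell k)) - max 0 (min 1 (2 - infDist x' E / ell k))| ≤
      |min 1 (2 - infDist x E / ell k) - min 1 (2 - infDist x' E / ell k)| := by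
    have := abs_max_sub_max_le_max (0 : ℝ) (min 1 (2 - infDist x E / ell k)) 0
      (min 1 (2 - infDist x' E / ell k))
    simpa using this
  have h2 : |min 1 (2 - infDist x E / ell k) - min 1 (2 - infDist x' E / ell k)| ≤
      |(2 - infDist x E / ell k) - (2 - infDist x' E / ell k)| := by
    have := abs_min_sub_min_le_max (1 : ℝ) (2 - infDist x E / ell k) 1
      (2 - infDist x' E / ell k)
    simpa using this
  have h3 : |(2 - infDist x E / ell k) - (2 - infDist x' E / ell k)| =
      |infDist x E - infDist x' E| / ell k := by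
    have : (2 - infDist x E / ell k) - (2 - infDist x' E / ell k) =
        -((infDist x E - infDist x' E) / ell k) := by ring
    rw [this, abs_neg, abs_div, abs_of_pos (ell_pos k)]
  have h4 : |infDist x E - infDist x' E| ≤ |x - x'| := by
    have := (lipschitz_infDist_pt (E)).dist_le_mul x x'
    rw [Real.dist_eq, Real.dist_eq] at this
    simpa using this
  have h5 := div_le_div_of_nonneg_right h4 (ell_pos k).le
  linarith

theorem t_Sys (hP : PP) (hE : E.Nonempty) : Sys E ell h := by
  refine ⟨hE, ?_, ell_pos, ?_, ?_, ?_, ?_, ?_⟩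
  · simp [ell]
  · intro k
    rw [ell_succ]
    have h1 := q_le' k
    have h2 := ell_pos k
    have h3 : ((1 : ℝ) / 2) ^ 21 ≤ 1 / 16 := by norm_num
    nlinarith
  · intro k z
    have h1 : h k z - z = ((ell k * eta k z.re : ℝ) : ℂ) * P (z.re / ell k) (z.im / ell k) := by
      unfold h
      ring
    rw [h1, norm_mul, Complex.norm_real, Real.norm_eq_abs,
      abs_of_nonneg (mul_nonneg (ell_pos k).le (eta_nonneg k _))]
    have h2 := hP.bdd (z.re / ell k) (z.im / ell k)
    have h3 : ell k * eta k z.re ≤ ell k := by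
      have := eta_le_one k z.re
      have := ell_pos k
      nlinarith
    calc ell k * eta k z.re * ‖P (z.re / ell k) (z.im / ell k)‖ ≤ ell k * (1 / 30) :=
          mul_le_mul h3 h2 (norm_nonneg _) (ell_pos k).le
      _ = ell k / 30 := by ring
  · intro k z z'
    set p := P (z.re / ell k) (z.im / ell k) with hp
    set p' := P (z'.re / ell k) (z'.im / ell k) with hp'
    have h1 : (h k z - h k z') - (z - z') =
        ((ell k * (eta k z.re - eta k z'.re) : ℝ) : ℂ) * p +
          ((ell k * eta k z'.re : ℝ) : ℂ) * (p - p') := by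
      unfold h
      rw [← hp, ← hp']
      push_cast
      ring
    have hl := ell_pos k
    have h2 : ‖((ell k * (eta k z.re - eta k z'.re) : ℝ) : ℂ) * p‖ ≤ |z.re - z'.re| * (1 / 30) := by
      rw [norm_mul, Complex.norm_real, Real.norm_eq_abs, abs_mul, abs_of_pos hl]
      have h3 := eta_lip k z.re z'.re
      have h4 : ell k * |eta k z.re - eta k z'.re| ≤ |z.re - z'.re| := by
        calc ell k * |eta k z.re - eta k z'.re| ≤ ell k * (|z.re - z'.re| / ell k) :=
              mul_le_mul_of_nonneg_left h3 hl.le
          _ = |z.re - z'.re| := by field_simp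
      exact mul_le_mul h4 (hP.bdd _ _) (norm_nonneg _) (abs_nonneg _)
    have h3 : ‖((ell k * eta k z'.re : ℝ) : ℂ) * (p - p')‖ ≤
        1 / 30 * (|z.re - z'.re| + |z.im - z'.im|) := by
      rw [norm_mul, Complex.norm_real, Real.norm_eq_abs,
        abs_of_nonneg (mul_nonneg hl.le (eta_nonneg k _))]
      have h4 := hP.lip (z.re / ell k) (z.im / ell k) (z'.re / ell k) (z'.im / ell k)
      have h5 : |z.re / ell k - z'.re / ell k| = |z.re - z'.re| / ell k := by
        rw [← sub_div, abs_div, abs_of_pos hl]
      have h6 : |z.im / ell k - z'.im / ell k| = |z.im - z'.im| / ell k := by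
        rw [← sub_div, abs_div, abs_of_pos hl]
      rw [h5, h6] at h4
      have h7 : ell k * eta k z'.re ≤ ell k := by
        have := eta_le_one k z'.re
        nlinarith
      calc ell k * eta k z'.re * ‖p - p'‖ ≤ ell k *
            (1 / 30 * (|z.re - z'.re| / ell k + |z.im - z'.im| / ell k)) :=
            mul_le_mul h7 h4 (norm_nonneg _) hl.le
        _ = 1 / 30 * (|z.re - z'.re| + |z.im - z'.im|) := by field_simp
    have h4 : |z.re - z'.re| ≤ ‖z - z'‖ := by
      have := Complex.abs_re_le_norm (z - z')
      simpa using this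
    have h5 : |z.im - z'.im| ≤ ‖z - z'‖ := by
      have := Complex.abs_im_le_norm (z - z')
      simpa using this
    rw [h1]
    refine (norm_add_le _ _).trans ?_
    linarith
  · intro k z hz
    have hl := ell_pos k
    have h1 : 2 ≤ infDist z.re E / ell k := by
      rw [le_div_iff₀ hl]
      exact hz
    have h2 : eta k z.re = 0 := by
      unfold eta
      exact max_eq_left ((min_le_right _ _).trans (by linarith))
    unfold h
    rw [h2]
    simp
  · intro k z hz
    have hl := ell_pos k
    have hl1 := ell_pos (k + 1)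
    have hs := ell_succ k
    set q : ℝ := (1 / 2) ^ (2 * k + 21) with hq
    have hq0 : 0 < q := by positivity
    have hq1 : q ≤ (1 / 2) ^ 21 := q_le' k
    have hq2 : q ≤ (1 / 2) ^ k * (1 / 2) ^ 21 := q_le k
    have hlt : infDist z.re E < 4 * ell (k + 1) := by linarith
    obtain ⟨x0, hx0, hd⟩ := (infDist_lt_iff hE).1 hlt
    rw [Real.dist_eq] at hd
    obtain ⟨j, hj⟩ := hx0 k
    have hzj : |z.re - 2 * Real.pi * ell k * j| ≤ 17 * ell (k + 1) := by
      have : z.re - 2 * Real.pi * ell k * j = (z.re - x0) + (x0 - 2 * Real.pi * ell k * j) := by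
        ring
      rw [this]
      exact (abs_add_le _ _).trans (by linarith)
    have hone : ∀ x : ℝ, infDist x E ≤ 5 * ell (k + 1) → eta k x = 1 := by
      intro x hx
      have h1 : infDist x E / ell k ≤ 1 := by
        rw [div_le_one hl]
        have : (5 : ℝ) * q ≤ 1 := by
          have : ((1 : ℝ) / 2) ^ 21 ≤ 1 / 5 := by norm_num
          linarith
        rw [hs] at hx
        nlinarith
      unfold eta
      rw [min_eq_left (by linarith), max_eq_right zero_le_one]
    refine ⟨1 + W (z.im / ell k), hP.big _, ?_⟩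
    intro z' hz'
    have hre : |z'.re - z.re| ≤ ‖z' - z‖ := by
      have := Complex.abs_re_le_norm (z' - z)
      simpa using this
    have him : |z'.im - z.im| ≤ ‖z' - z‖ := by
      have := Complex.abs_im_le_norm (z' - z)
      simpa using this
    have e1 : eta k z.re = 1 := hone _ (by linarith)
    have e2 : eta k z'.re = 1 := by
      apply hone
      have h1 : infDist z'.re E ≤ infDist z.re E + dist z'.re z.re := infDist_le_infDist_add_dist
      rw [Real.dist_eq] at h1
      linarith
    set X := z.re / ell k - 2 * Real.pi * j with hX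
    set X' := z'.re / ell k - 2 * Real.pi * j with hX'
    have p1 : P (z.re / ell k) (z.im / ell k) = P X (z.im / ell k) := (hP.per _ _ _).symm
    have p2 : P (z'.re / ell k) (z'.im / ell k) = P X' (z'.im / ell k) := (hP.per _ _ _).symm
    have herr := hP.err X' (z'.im / ell k) X (z.im / ell k)
    have hlC : (ell k : ℂ) ≠ 0 := by exact_mod_cast hl.ne'
    have e3 : h k z' - h k z - (1 + W (z.im / ell k)) * (z' - z) =
        (ell k : ℂ) * (P X' (z'.im / ell k) - P X (z.im / ell k) -
          W (z.im / ell k) * (((X' - X : ℝ) : ℂ) +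
            Complex.I * ((z'.im / ell k - z.im / ell k : ℝ) : ℂ))) := by
      have e4 : (ell k : ℂ) * (((X' - X : ℝ) : ℂ) +
            Complex.I * ((z'.im / ell k - z.im / ell k : ℝ) : ℂ)) = z' - z := by
        have h1 : X' - X = (z'.re - z.re) / ell k := by
          rw [hX, hX']
          ring
        rw [h1]
        conv_rhs => rw [← Complex.re_add_im z', ← Complex.re_add_im z]
        push_cast
        field_simp
        ring
      generalize (((X' - X : ℝ) : ℂ) +
            Complex.I * ((z'.im / ell k - z.im / ell k : ℝ) : ℂ)) = D at e4 ⊢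
      unfold h
      rw [e1, e2, p1, p2, mul_one]
      linear_combination W (z.im / ell k) * e4
    have hX1 : |X| ≤ 17 * q := by
      have h1 : X = (z.re - 2 * Real.pi * ell k * j) / ell k := by
        rw [hX]
        field_simp
      rw [h1, abs_div, abs_of_pos hl, div_le_iff₀ hl]
      rw [hs] at hzj
      linarith
    have hXX : |X' - X| = |z'.re - z.re| / ell k := by
      have h1 : X' - X = (z'.re - z.re) / ell k := by
        rw [hX, hX']
        ring
      rw [h1, abs_div, abs_of_pos hl]
    have hYY : |z'.im / ell k - z.im / ell k| = |z'.im - z.im| / ell k := by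
      rw [← sub_div, abs_div, abs_of_pos hl]
    have hb : ‖z' - z‖ / ell k ≤ 2 * q := by
      rw [div_le_iff₀ hl]
      rw [hs] at hz'
      linarith
    have hXX2 : |X' - X| ≤ ‖z' - z‖ / ell k := by
      rw [hXX]
      exact div_le_div_of_nonneg_right hre hl.le
    have hYY2 : |z'.im / ell k - z.im / ell k| ≤ ‖z' - z‖ / ell k := by
      rw [hYY]
      exact div_le_div_of_nonneg_right him hl.le
    have hX2 : |X'| ≤ 19 * q := by
      have : X' = (X' - X) + X := by ring
      rw [this]
      exact (abs_add_le _ _).trans (by linarith)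
    rw [e3, norm_mul, Complex.norm_real, Real.norm_eq_abs, abs_of_pos hl]
    have hn : 0 ≤ ‖z' - z‖ / ell k := by positivity
    have h7 : 1 / 15 * (|X'| + |X| + |z'.im / ell k - z.im / ell k|) *
        (|X' - X| + |z'.im / ell k - z.im / ell k|) ≤
        1 / 15 * (38 * q) * (2 * (‖z' - z‖ / ell k)) := by
      apply mul_le_mul
      · linarith
      · linarith
      · positivity
      · positivity
    have h8 : ell k * (1 / 15 * (38 * q) * (2 * (‖z' - z‖ / ell k))) =
        76 / 15 * q * ‖z' - z‖ := by
      field_simp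
      ring
    have h9 : 76 / 15 * q ≤ (1 / 2) ^ k / 10 := by
      have h10 : (0 : ℝ) < (1 / 2) ^ k := by positivity
      have h11 : ((1 : ℝ) / 2) ^ 21 ≤ 1 / 1000 := by norm_num
      nlinarith
    calc ell k * ‖P X' (z'.im / ell k) - P X (z.im / ell k) -
          W (z.im / ell k) * (((X' - X : ℝ) : ℂ) +
            Complex.I * ((z'.im / ell k - z.im / ell k : ℝ) : ℂ))‖
        ≤ ell k * (1 / 15 * (38 * q) * (2 * (‖z' - z‖ / ell k))) :=
          mul_le_mul_of_nonneg_left (herr.trans h7) hl.le
      _ = 76 / 15 * q * ‖z' - z‖ := h8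
      _ ≤ (1 / 2) ^ k / 10 * ‖z' - z‖ := mul_le_mul_of_nonneg_right h9 (norm_nonneg _)

end Pool.Agent.W28.QL
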